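import Pool.Agent.Lib.MP_524519_ag.DU5.TR.Iface

/-! # DU5, chapter TR, module LNR: the length of a quotient as a rank (helper19) -/

set_option autoImplicit false

namespace Pool.Agent.DU5.TR

theorem lnr : LnrStatement := by
  intro k _ n I
  unfold len
  exact Module.length_eq_rank k (O k n ⧸ I)

end Pool.Agent.DU5.TR
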